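import Pool.Agent.helper80.HF.SpecG

set_option autoImplicit false

open scoped MatrixGroups ContDiff Topology UpperHalfPlane ComplexConjugate
open UpperHalfPlane MeasureTheory Filter Set

namespace Pool.Agent.HF

open Pool.Agent.RS
open Pool.Agent.MS (bq)

private lemma GPO_lM_add (a b : ℝ) : lM (a + b) = lM a * lM b := by
  apply Subtype.ext
  rw [Matrix.SpecialLinearGroup.coe_mul]
  simp only [lM, Matrix.mul_fin_two]
  ext i j
  fin_cases i <;> fin_cases j <;> simp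

private lemma GPO_lM_aM (u t : ℝ) : lM u * aM t = aM t * lM (Real.exp t * u) := by
  apply Subtype.ext
  rw [Matrix.SpecialLinearGroup.coe_mul, Matrix.SpecialLinearGroup.coe_mul]
  simp only [lM, aM, Matrix.mul_fin_two]
  have h : Real.exp (-(t / 2)) * Real.exp t = Real.exp (t / 2) := by
    rw [← Real.exp_add]; congr 1; ring
  ext i j
  fin_cases i <;> fin_cases j
  · simp
  · simp
  · simp only [Fin.mk_one, Fin.zero_eta, Matrix.of_apply, Matrix.cons_val', Matrix.cons_val_zero, Matrix.cons_val_one]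
    simp
    rw [← mul_assoc, h]
    ring
  · simp

private lemma GPO_cell (N J u : ℕ) (hJ : J ≤ N) (x : ℝ) (h1 : (u : ℝ) / 2 ^ N ≤ x) (h2 : x ≤ ((u : ℝ) + 1) / 2 ^ N) :
    (px N J u : ℝ) / 2 ^ J ≤ x ∧ x ≤ ((px N J u : ℝ) + 1) / 2 ^ J := by
  have hpow : (2 : ℝ) ^ N = 2 ^ J * 2 ^ (N - J) := by
    rw [← pow_add]; congr 1; omega
  have hk1 : px N J u * 2 ^ (N - J) ≤ u := by
    unfold px; exact Nat.div_mul_le_self _ _
  have hk2 : u + 1 ≤ (px N J u + 1) * 2 ^ (N - J) := by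
    unfold px
    have h := Nat.lt_succ_iff.mp (Nat.lt_succ_of_lt (Nat.lt_div_mul_add (a := u) (b := 2 ^ (N - J)) (by positivity)))
    have h' := Nat.lt_div_mul_add (a := u) (b := 2 ^ (N - J)) (by positivity)
    rw [add_mul, one_mul]
    omega
  have hk1' : (px N J u : ℝ) * 2 ^ (N - J) ≤ u := by exact_mod_cast hk1
  have hk2' : (u : ℝ) + 1 ≤ ((px N J u : ℝ) + 1) * 2 ^ (N - J) := by exact_mod_cast hk2
  have hp1 : (0 : ℝ) < 2 ^ J := by positivity
  have hp2 : (0 : ℝ) < 2 ^ (N - J) := by positivity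
  constructor
  · refine le_trans ?_ h1
    rw [hpow, div_le_div_iff₀ hp1 (by positivity)]
    nlinarith
  · refine le_trans h2 ?_
    rw [hpow, div_le_div_iff₀ (by positivity) hp1]
    nlinarith

theorem GPO_proof (h1 : GUB_stmt) (h2 : GCN_stmt) : GPO_stmt := by
  classical
  intro Γ hΓ
  obtain ⟨a0, C1, ha0, ha0', H⟩ := h1 Γ hΓ
  refine ⟨a0, 6 * C1, ha0, ha0', ?_⟩
  intro b m N j p Am g T v hb hba hN hT
  have hL0 : 0 < Real.log 2 := Real.log_pos (by norm_num)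
  generalize hm2 : ⌊(m : ℝ) / Real.log 2⌋₊ = m2 at *
  generalize hi : ⌊(j : ℝ) * Real.log 2⌋₊ = i at *
  have hi1 : (i : ℝ) ≤ (j : ℝ) * Real.log 2 := by
    rw [← hi]; exact Nat.floor_le (by positivity)
  have hi2 : (j : ℝ) * Real.log 2 < (i : ℝ) + 1 := by
    rw [← hi]; exact Nat.lt_floor_add_one _
  have hm21 : (m2 : ℝ) * Real.log 2 ≤ m := by
    have h : (m2 : ℝ) ≤ (m : ℝ) / Real.log 2 := by
      rw [← hm2]; exact Nat.floor_le (by positivity)
    rwa [le_div_iff₀ hL0] at h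
  have hpj : Real.exp ((j : ℝ) * Real.log 2) = 2 ^ j := by
    rw [mul_comm, Real.exp_mul, Real.exp_log (by norm_num), Real.rpow_natCast]
  have hpm : Real.exp ((m2 : ℝ) * Real.log 2) = 2 ^ m2 := by
    rw [mul_comm, Real.exp_mul, Real.exp_log (by norm_num), Real.rpow_natCast]
  have hS : ∀ y : SL(2, ℝ), ∃ S : Finset ℝ, S.card ≤ C1 ∧ ∀ u : ℝ, 0 ≤ u → u ≤ 1 →
      (∃ γ : Γ, bq b b (b * Real.exp (-(m : ℝ))) (y⁻¹ * (γ : SL(2, ℝ)) * ((g * lM ((p : ℝ) / 2 ^ j) * aM (i : ℝ)) * lM u))) →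
        ∃ s ∈ S, s ≤ u ∧ u ≤ s + Real.exp (-(m : ℝ)) :=
    fun y => H b m y (g * lM ((p : ℝ) / 2 ^ j) * aM (i : ℝ)) hb hba (Nat.cast_nonneg _)
  choose S hS1 hS2 using hS
  have hcard : (Am.biUnion (fun y => (S y).image (fun s => (p : ℝ) / 2 ^ j + Real.exp (-(i : ℝ)) * s))).card ≤ Am.card * C1 :=
    Finset.card_biUnion_le_card_mul _ _ _ (fun y _ => Finset.card_image_le.trans (hS1 y))
  have hmain := h2 (Am.biUnion (fun y => (S y).image (fun s => (p : ℝ) / 2 ^ j + Real.exp (-(i : ℝ)) * s))) (2 ^ (j + m2))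
    (T.image (px N (j + m2))) (by positivity) ?_
  · calc (T.image (px N (j + m2))).card ≤ 6 * (Am.biUnion (fun y => (S y).image (fun s => (p : ℝ) / 2 ^ j + Real.exp (-(i : ℝ)) * s))).card := hmain
      _ ≤ 6 * (Am.card * C1) := Nat.mul_le_mul_left _ hcard
      _ = 6 * C1 * Am.card := by ring
  · intro k hk
    rw [Finset.mem_image] at hk
    obtain ⟨u, hu, rfl⟩ := hk
    obtain ⟨e1, e2, e3, y, hy, γ, hγ⟩ := hT u hu
    have c1 := GPO_cell N (j + m2) u hN (v u) e1 e2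
    have c2 := GPO_cell N j u (by omega) (v u) e1 e2
    rw [e3] at c2
    refine ⟨v u, ?_, ?_, ?_⟩
    · push_cast
      exact c1.1
    · push_cast
      exact c1.2
    · have hw0 : 0 ≤ v u - (p : ℝ) / 2 ^ j := by linarith [c2.1]
      have hpj0 : (0 : ℝ) < 2 ^ j := by positivity
      have hw1 : v u - (p : ℝ) / 2 ^ j ≤ 1 / 2 ^ j := by
        have h := c2.2
        rw [add_div] at h
        linarith
      have hei : Real.exp (i : ℝ) ≤ 2 ^ j := by
        rw [← hpj]; exact Real.exp_le_exp.mpr hi1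
      have ht0 : 0 ≤ Real.exp (i : ℝ) * (v u - (p : ℝ) / 2 ^ j) := mul_nonneg (Real.exp_pos _).le hw0
      have ht1 : Real.exp (i : ℝ) * (v u - (p : ℝ) / 2 ^ j) ≤ 1 := by
        calc Real.exp (i : ℝ) * (v u - (p : ℝ) / 2 ^ j) ≤ 2 ^ j * (1 / 2 ^ j) := mul_le_mul hei hw1 hw0 hpj0.le
          _ = 1 := by field_simp
      have hmat : g * lM (v u) * aM (i : ℝ) = (g * lM ((p : ℝ) / 2 ^ j) * aM (i : ℝ)) * lM (Real.exp (i : ℝ) * (v u - (p : ℝ) / 2 ^ j)) := by
        have h3 : v u = (p : ℝ) / 2 ^ j + (v u - (p : ℝ) / 2 ^ j) := by ring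
        have h4 : lM (v u) = lM ((p : ℝ) / 2 ^ j) * lM (v u - (p : ℝ) / 2 ^ j) := by
          rw [← GPO_lM_add, ← h3]
        rw [h4, mul_assoc (g * lM ((p : ℝ) / 2 ^ j)), ← GPO_lM_aM]
        simp only [mul_assoc]
      rw [hmat] at hγ
      obtain ⟨s, hs, hs1, hs2⟩ := hS2 y _ ht0 ht1 ⟨γ, hγ⟩
      refine ⟨(p : ℝ) / 2 ^ j + Real.exp (-(i : ℝ)) * s, ?_, ?_, ?_⟩
      · rw [Finset.mem_biUnion]
        exact ⟨y, hy, Finset.mem_image_of_mem _ hs⟩
      · have h5 : Real.exp (-(i : ℝ)) * s ≤ Real.exp (-(i : ℝ)) * (Real.exp (i : ℝ) * (v u - (p : ℝ) / 2 ^ j)) :=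
          mul_le_mul_of_nonneg_left hs1 (Real.exp_pos _).le
        rw [← mul_assoc, ← Real.exp_add, neg_add_cancel, Real.exp_zero, one_mul] at h5
        linarith
      · have h5 : Real.exp (-(i : ℝ)) * (Real.exp (i : ℝ) * (v u - (p : ℝ) / 2 ^ j)) ≤ Real.exp (-(i : ℝ)) * (s + Real.exp (-(m : ℝ))) :=
          mul_le_mul_of_nonneg_left hs2 (Real.exp_pos _).le
        rw [← mul_assoc, ← Real.exp_add, neg_add_cancel, Real.exp_zero, one_mul, mul_add] at h5
        have h6 : Real.exp (-(i : ℝ)) ≤ 3 / 2 ^ j := by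
          have h7 : Real.exp (-(i : ℝ)) = Real.exp 1 * Real.exp (-((i : ℝ) + 1)) := by
            rw [← Real.exp_add]; congr 1; ring
          have h8 : Real.exp (-((i : ℝ) + 1)) ≤ (2 ^ j)⁻¹ := by
            rw [← hpj, ← Real.exp_neg]
            exact Real.exp_le_exp.mpr (by linarith)
          have h9 : Real.exp 1 ≤ 3 := by
            have := Real.exp_one_lt_d9
            linarith
          rw [h7, div_eq_mul_inv]
          exact mul_le_mul h9 h8 (Real.exp_pos _).le (by norm_num)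
        have h10 : Real.exp (-(m : ℝ)) ≤ (2 ^ m2)⁻¹ := by
          rw [← hpm, ← Real.exp_neg]
          exact Real.exp_le_exp.mpr (by linarith)
        have h11 : Real.exp (-(i : ℝ)) * Real.exp (-(m : ℝ)) ≤ 3 / 2 ^ j * (2 ^ m2)⁻¹ :=
          mul_le_mul h6 h10 (Real.exp_pos _).le (by positivity)
        have h12 : (3 : ℝ) / 2 ^ j * (2 ^ m2)⁻¹ = 3 / ((2 ^ (j + m2) : ℕ) : ℝ) := by
          push_cast
          rw [pow_add]
          field_simp
        rw [← h12]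
        linarith

end Pool.Agent.HF
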