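import Pool.Agent.helper84.HF.SpecH

set_option autoImplicit false

open Finset

namespace Pool.Agent.HF

open Classical in
private lemma HPR_sum_one {α ι : Type} (X : Finset α) (f : α → ι) (hX : X.Nonempty) :
    ∑ i ∈ X.image f, ((X.filter (fun x => f x = i)).card : ℝ) / X.card = 1 := by
  have h1 : X.card = ∑ i ∈ X.image f, (X.filter (fun x => f x = i)).card :=
    Finset.card_eq_sum_card_fiberwise (fun x hx => Finset.mem_image_of_mem f hx)
  have h2 : (X.card : ℝ) = ∑ i ∈ X.image f, ((X.filter (fun x => f x = i)).card : ℝ) := by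
    exact_mod_cast h1
  rw [← Finset.sum_div, ← h2]
  exact div_self (by exact_mod_cast hX.card_pos.ne')

private lemma HPR_H {α ι : Type} [inst : DecidableEq ι] (X : Finset α) (f : α → ι) :
    H X f = ∑ i ∈ X.image f, Real.negMulLog (((X.filter (fun x => f x = i)).card : ℝ) / X.card) := by
  unfold H
  have h : inst = (fun a b => Classical.propDecidable (a = b)) := Subsingleton.elim _ _
  subst h
  rfl

theorem HPR_proof : HPR_stmt := by
  classical
  intro α β ι κ X Z f g hX hZ
  have hXc : (X.card : ℝ) ≠ 0 := by exact_mod_cast hX.card_pos.ne'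
  have hZc : (Z.card : ℝ) ≠ 0 := by exact_mod_cast hZ.card_pos.ne'
  refine ⟨?_, ?_, ?_⟩
  · rw [HPR_H, HPR_H, HPR_H]
    have himg : (X ×ˢ Z).image (fun z => (f z.1, g z.2)) = (X.image f) ×ˢ (Z.image g) := by
      ext ⟨i, j⟩
      simp only [mem_image, mem_product, Prod.mk.injEq, Prod.exists]
      constructor
      · rintro ⟨a, b, ⟨ha, hb⟩, h1, h2⟩
        exact ⟨⟨a, ha, h1⟩, ⟨b, hb, h2⟩⟩
      · rintro ⟨⟨a, ha, h1⟩, ⟨b, hb, h2⟩⟩
        exact ⟨a, b, ⟨ha, hb⟩, h1, h2⟩
    rw [himg, Finset.sum_product]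
    have hfib : ∀ (i : ι) (j : κ), (((X ×ˢ Z).filter (fun z => (f z.1, g z.2) = (i, j))).card : ℝ) / ((X ×ˢ Z).card : ℝ)
        = (((X.filter (fun x => f x = i)).card : ℝ) / X.card) * (((Z.filter (fun x => g x = j)).card : ℝ) / Z.card) := by
      intro i j
      have h1 : (X ×ˢ Z).filter (fun z => (f z.1, g z.2) = (i, j)) = (X.filter (fun x => f x = i)) ×ˢ (Z.filter (fun x => g x = j)) := by
        ext ⟨a, b⟩
        simp only [mem_filter, mem_product, Prod.mk.injEq]
        tauto
      rw [h1, Finset.card_product, Finset.card_product]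
      push_cast
      field_simp
    simp only [hfib, Real.negMulLog_mul]
    simp only [Finset.sum_add_distrib, ← Finset.sum_mul, ← Finset.mul_sum]
    rw [HPR_sum_one X f hX, HPR_sum_one Z g hZ]
    ring
  · rw [HPR_H, HPR_H]
    have himg : (X ×ˢ Z).image (fun z => f z.1) = X.image f := by
      ext i
      simp only [mem_image, mem_product, Prod.exists]
      constructor
      · rintro ⟨a, b, ⟨ha, hb⟩, h1⟩
        exact ⟨a, ha, h1⟩
      · rintro ⟨a, ha, h1⟩
        obtain ⟨b, hb⟩ := hZ
        exact ⟨a, b, ⟨ha, hb⟩, h1⟩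
    rw [himg]
    refine Finset.sum_congr rfl fun i _ => ?_
    have h1 : (X ×ˢ Z).filter (fun z => f z.1 = i) = (X.filter (fun x => f x = i)) ×ˢ Z := by
      ext ⟨a, b⟩
      simp only [mem_filter, mem_product]
      tauto
    rw [h1, Finset.card_product, Finset.card_product]
    push_cast
    rw [mul_div_mul_right _ _ hZc]
  · rw [HPR_H, HPR_H]
    have himg : (X ×ˢ Z).image (fun z => g z.2) = Z.image g := by
      ext i
      simp only [mem_image, mem_product, Prod.exists]
      constructor
      · rintro ⟨a, b, ⟨ha, hb⟩, h1⟩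
        exact ⟨b, hb, h1⟩
      · rintro ⟨b, hb, h1⟩
        obtain ⟨a, ha⟩ := hX
        exact ⟨a, b, ⟨ha, hb⟩, h1⟩
    rw [himg]
    refine Finset.sum_congr rfl fun i _ => ?_
    have h1 : (X ×ˢ Z).filter (fun z => g z.2 = i) = X ×ˢ (Z.filter (fun x => g x = i)) := by
      ext ⟨a, b⟩
      simp only [mem_filter, mem_product]
      tauto
    rw [h1, Finset.card_product, Finset.card_product]
    push_cast
    rw [mul_div_mul_left _ _ hXc]

end Pool.Agent.HF
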